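import Pool.Agent.Helper93.TH3.StD

/-!
Project TH3, module RLL and SOL: the relations as lists, and solutions of the relations.
-/

set_option autoImplicit false

namespace Pool.Agent.Helper47.TH3

open Pool.Agent.Helper93.TH3
open Pool.Agent.Helper78.W3 (tr Fn3 Tm opL op3 S3Trm)

private lemma sq1 {R : Type} {r s : ℕ} (ht : S3Trm) (b : ZMod (3 ^ r) → ZMod (3 ^ s) → R) :
    tr 4 (-1) 2 (-4) (tr 4 (-1) 2 (-4) b) = b := by
  obtain ⟨c, i0, k⟩ := ht R r s b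
  rw [c 4 (-1) 2 (-4) 4 (-1) 2 (-4) (by decide) (by decide) (by decide) (by decide)]
  have h := k (-2) 1 0 0 1 (by decide) (by decide) (by decide)
  rw [i0] at h
  norm_num at h ⊢
  exact h

private lemma sq2 {R : Type} {r s : ℕ} (ht : S3Trm) (b : ZMod (3 ^ r) → ZMod (3 ^ s) → R) :
    tr 4 1 (-2) (-4) (tr 4 1 (-2) (-4) b) = b := by
  obtain ⟨c, i0, k⟩ := ht R r s b
  rw [c 4 1 (-2) (-4) 4 1 (-2) (-4) (by decide) (by decide) (by decide) (by decide)]
  have h := k (-2) 1 0 0 1 (by decide) (by decide) (by decide)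
  rw [i0] at h
  norm_num at h ⊢
  exact h

/-- RLL. -/
theorem hRll (ht : S3Trm) : TRll := by
  intro r s F hF ρ
  obtain ⟨h1, h2, h3⟩ := hF
  have i0 := (ht (ZMod 3) r s (F 0)).2.1
  have i1 := (ht (ZMod 3) r s (F 1)).2.1
  have i2 := (ht (ZMod 3) r s (F 2)).2.1
  have i3 := (ht (ZMod 3) r s (F 3)).2.1
  have i4 := (ht (ZMod 3) r s (F 4)).2.1
  have hop : ∀ (a b c d : ℤ) (G : Fn3 (3 ^ r) (3 ^ s)) (x : ZMod (3 ^ r)) (y : ZMod (3 ^ s)),
      op3 a b c d G x y = tr a b c d G x y := fun _ _ _ _ _ _ _ => rfl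
  funext x y
  have g1 : (F 0 x y - F 1 x y - F 3 x y) + (tr 4 (-1) 2 (-4) (F 0) x y -
      tr 4 (-1) 2 (-4) (F 1) x y - tr 4 (-1) 2 (-4) (F 3) x y) = 0 := h1 x y
  have g2 : (F 0 x y - F 2 x y - F 4 x y) + (tr 4 1 (-2) (-4) (F 0) x y -
      tr 4 1 (-2) (-4) (F 2) x y - tr 4 1 (-2) (-4) (F 4) x y) = 0 := h2 x y
  have g3 := h3 x y
  fin_cases ρ
  · simp [relT, opL, hop, Fin.sum_univ_five, i0, i1, i3]
    linear_combination g1
  · simp [relT, opL, hop, Fin.sum_univ_five, i0, i2, i4]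
    linear_combination g2
  · simp [relT, opL, hop, Fin.sum_univ_five, i1]
    linear_combination g3

/-- SOL. -/
theorem hSol (ht : S3Trm) : TSol := by
  intro R _ r s f0 f1 f2 b b' h
  have k1 : kT (solT f0 f1 f2 b b') = dsT b := by
    funext x y
    show f0 x y - f1 x y - (f0 x y - f1 x y - dsT b x y) = dsT b x y
    abel
  have k2 : kT' (solT f0 f1 f2 b b') = dsT' b' := by
    funext x y
    show f0 x y - f2 x y - (f0 x y - f2 x y - dsT' b' x y) = dsT' b' x y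
    abel
  have a1 := sq1 ht b
  have a2 := sq2 ht b'
  refine ⟨fun x y => ?_, fun x y => ?_, fun x y => ?_⟩
  · rw [k1]
    show b x y - tr 4 (-1) 2 (-4) b x y +
      (tr 4 (-1) 2 (-4) b x y - tr 4 (-1) 2 (-4) (tr 4 (-1) 2 (-4) b) x y) = 0
    rw [a1]
    abel
  · rw [k2]
    show b' x y - tr 4 1 (-2) (-4) b' x y +
      (tr 4 1 (-2) (-4) b' x y - tr 4 1 (-2) (-4) (tr 4 1 (-2) (-4) b') x y) = 0
    rw [a2]
    abel
  · exact h x y

end Pool.Agent.Helper47.TH3
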